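import Pool.Agent.Lib.MP_55a7f7_gt.Main

set_option autoImplicit false

namespace Pool.Agent.Results.MP_55a7f7_gt.Rectangles

open Pool.Agent.Lib.MP_55a7f7_gt

/-- Every smooth Jordan curve on the unit sphere, whatever its diameter, inscribes a rectangle of
type `θ` for every `θ` strictly between `0` and `π`. -/
theorem result (γ : ℝ → E3) (hγ : Emb γ) (hS : ∀ s, ‖γ s‖ = 1) (θ : ℝ) (h0 : 0 < θ)
    (hπ : θ < Real.pi) :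
    ∃ p₁ ∈ Set.range γ, ∃ p₂ ∈ Set.range γ, ∃ p₃ ∈ Set.range γ, ∃ p₄ ∈ Set.range γ,
      IsRect θ p₁ p₂ p₃ p₄ := by
  obtain ⟨s₁, s₂, s₃, s₄, h⟩ := main hγ hS h0 hπ
  exact ⟨_, ⟨s₁, rfl⟩, _, ⟨s₂, rfl⟩, _, ⟨s₃, rfl⟩, _, ⟨s₄, rfl⟩, h⟩

end Pool.Agent.Results.MP_55a7f7_gt.Rectangles
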